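import Pool.Agent.W684.Inj
import Pool.Agent.W684.FM.Ambient

/-!
# It is consistent that `C(ℕ*)` is `ℵ₂`-injective

* There is a preordered set of forcing conditions which preserves all cardinals and forces
  Martin's axiom for `ℵ₁` dense sets.
* Under Martin's axiom for `ℵ₁` dense sets, the Banach space `C(ℕ*)` is `(λ, ℵ₂)`-injective for
  every `λ > 3`; in particular it is `ℵ₂`-injective.

The forcing language is the one of `Pool.Agent.Helper669.Forcing`: a sentence is the set of the
conditions which force it, `fnot`, `fand`, `fall` are the primitive connectives and `fimp`, `fex`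
are defined from them classically; a name for a subset of a ground model set `X` is a map sending
`x : X` to a set of conditions, and `meets N` says that the generic filter meets `N`. The sentence
`MartinHolds P X` is the translation into the forcing language of the proposition `MartinFor X`
(both are in `Pool.Agent.W684.FM.Defs`), which is Martin's axiom for preorders with underlying set
`X` and `X`-indexed families of dense sets. The theorem also records that `MartinFor Om1`, where
`Om1` is the set of the countable ordinals, is equivalent to the usual form of Martin's axiom for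
`ℵ₁` dense sets.
-/

set_option autoImplicit false

namespace Pool.Agent.Results.MP_b72cba_an.ForcedInjective

open Cardinal Pool.Agent.Helper669.Forcing Pool.Agent.W684.FM
open scoped BoundedContinuousFunction

universe u

/-- The remainder `ℕ* = βℕ \ ℕ` of the Stone–Čech compactification of the discrete space `ℕ`,
with the subspace topology. -/
abbrev NStar : Type :=
  {x : StoneCech ℕ // x ∉ Set.range (stoneCechUnit : ℕ → StoneCech ℕ)}

/-- `E` is `(λ, κ)`-injective: if `X` is a Banach space whose density character is less than `κ`
(it has a dense subset of cardinality less than `κ`), `Y` is a closed subspace of `X` and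
`t : Y → E` is a bounded linear operator, then `t` extends to a bounded linear operator
`T : X → E` with `‖T‖ ≤ λ ‖t‖`. -/
def IsInjectiveFor (lam : ℝ) (κ : Cardinal.{u}) (E : Type) [NormedAddCommGroup E]
    [NormedSpace ℝ E] : Prop :=
  ∀ (X : Type u) [NormedAddCommGroup X] [NormedSpace ℝ X] [CompleteSpace X],
    (∃ D : Set X, Dense D ∧ #D < κ) →
    ∀ Y : Submodule ℝ X, IsClosed (Y : Set X) → ∀ t : Y →L[ℝ] E,
      ∃ T : X →L[ℝ] E, (∀ y : Y, T y = t y) ∧ ‖T‖ ≤ lam * ‖t‖

/-- The countable chain condition: every set of pairwise incompatible conditions is countable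
(a smaller condition is stronger). -/
def IsCCC (P : Type) [Preorder P] : Prop :=
  ∀ A : Set P, (∀ p ∈ A, ∀ q ∈ A, p ≠ q → ¬ ∃ r : P, r ≤ p ∧ r ≤ q) → A.Countable

/-- Martin's axiom for `ℵ₁` dense sets: for every nonempty preordered set `P` with the countable
chain condition and every family of at most `ℵ₁` dense subsets of `P` there is a filter in `P`
which meets each of them. -/
def MartinAxiomAleph1 : Prop :=
  ∀ (P : Type) [Preorder P] [Nonempty P], IsCCC P →
    ∀ 𝒟 : Set (Set P), #𝒟 ≤ ℵ₁ → (∀ D ∈ 𝒟, ∀ p : P, ∃ q ∈ D, q ≤ p) →
      ∃ G : Set P, G.Nonempty ∧ (∀ p ∈ G, ∀ q : P, p ≤ q → q ∈ G) ∧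
        (∀ p ∈ G, ∀ q ∈ G, ∃ r ∈ G, r ≤ p ∧ r ≤ q) ∧ ∀ D ∈ 𝒟, (G ∩ D).Nonempty

/-- There is a preordered set `P` of forcing conditions such that every condition forces that all
cardinals of the ground model are cardinals, that `ω₁` is preserved and that Martin's axiom for
`ℵ₁` dense sets holds. This axiom (whose two formulations are equivalent) implies that `C(ℕ*)` is
`(λ, ℵ₂)`-injective for every real number `λ > 3`. -/
theorem result :
    (∃ (P : Type) (_ : Preorder P), Nonempty P ∧ ∀ p : P,
      p ∈ CardinalsPreserved.{0, 0} P ∧ p ∈ OmegaOnePreserved P ∧ p ∈ MartinHolds P Om1) ∧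
    (MartinFor Om1 ↔ MartinAxiomAleph1) ∧
    (MartinAxiomAleph1 → ∀ lam : ℝ, 3 < lam → IsInjectiveFor.{u} lam (ℵ_ 2) (NStar →ᵇ ℝ)) :=
  ⟨exists_forcing Om1, martinFor_om1_iff,
    fun hMA lam hlam => Pool.Agent.W684.injective_main hMA hlam⟩

end Pool.Agent.Results.MP_b72cba_an.ForcedInjective
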